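import Pool.Agent.helper7.IG.Stmt1
import Pool.Agent.helper7.IG.Basic

/-!
# IG, module MEAS: the measure of linear independence
-/

set_option autoImplicit false

open Polynomial

noncomputable section

namespace Pool.Agent.helper7.IG

lemma meas_incl_X : incl (X : Polynomial kk) = xx := by
  show HahnSeries.ofPowerSeries ℤ kk (((X : Polynomial kk) : PowerSeries kk)) = xx
  rw [Polynomial.coe_X, HahnSeries.ofPowerSeries_X]
  rfl

lemma meas_incl_C (a : kk) : incl (C a : Polynomial kk) = algebraMap kk LL a := by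
  show HahnSeries.ofPowerSeries ℤ kk (((C a : Polynomial kk) : PowerSeries kk)) = HahnSeries.C a
  rw [Polynomial.coe_C, HahnSeries.ofPowerSeries_C]

lemma meas_incl_sum (P : Polynomial kk) (N : ℕ) (hN : P.natDegree < N) :
    incl P = ∑ k ∈ Finset.range N, xx ^ k * algebraMap kk LL (P.coeff k) := by
  conv_lhs => rw [Polynomial.as_sum_range' P N hN]
  rw [map_sum]
  refine Finset.sum_congr rfl fun k _ => ?_
  rw [← Polynomial.C_mul_X_pow_eq_monomial, map_mul, map_pow, meas_incl_X, meas_incl_C, mul_comm]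

lemma meas_sig_xx (e : ℕ) (he : e ≠ 0) : sig e 1 xx = xx ^ e := by
  unfold xx
  rw [HahnSeries.single_pow, one_pow]
  ext n
  rw [sig_coeff he, HahnSeries.coeff_single]
  simp only [one_zpow, Units.val_one, one_mul, HahnSeries.coeff_single, nsmul_eq_mul, mul_one]
  have he' : (e : ℤ) ≠ 0 := by exact_mod_cast he
  split_ifs with h1 h2 h3 h3
  · rfl
  · exact absurd (by rw [← Int.mul_ediv_cancel' h1, h2, mul_one]) h3
  · exact absurd (by rw [h3]; exact Int.ediv_self he') h2
  · rfl
  · exact absurd ⟨1, by rw [‹n = _›, mul_one]⟩ h1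
  · rfl

lemma meas_sig_incl (e : ℕ) (he : e ≠ 0) (P : Polynomial kk) :
    sig e 1 (incl P) = incl (expand kk e P) := by
  have h : ((sig e 1 : LL →ₐ[kk] LL) : LL →+* LL).comp incl =
      incl.comp ((expand kk e : Polynomial kk →ₐ[kk] Polynomial kk) : Polynomial kk →+* Polynomial kk) := by
    apply Polynomial.ringHom_ext
    · intro a
      simp only [RingHom.comp_apply, RingHom.coe_coe, expand_C, meas_incl_C]
      exact (sig e 1).commutes a
    · simp only [RingHom.comp_apply, RingHom.coe_coe, expand_X, map_pow, meas_incl_X]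
      exact meas_sig_xx e he
  exact RingHom.congr_fun h P

lemma meas_im2_coe (A : Polynomial (ZMod 2)) :
    im2 (A : PowerSeries (ZMod 2)) = incl (A.map (algebraMap (ZMod 2) kk)) := by
  show HahnSeries.ofPowerSeries ℤ kk (PowerSeries.map (algebraMap (ZMod 2) kk) A) =
    HahnSeries.ofPowerSeries ℤ kk (((A.map (algebraMap (ZMod 2) kk) : Polynomial kk) : PowerSeries kk))
  rw [Polynomial.polynomial_map_coe]

/-- the components `Wt t r` through the series `Pr t r` -/
lemma meas_Wt (t r : ℕ) (hr : r < t) :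
    xx * Wt t r = xx ^ (24 * r) * sig (24 * t) 1 (im2 (Pr t r)) := by
  have ht : 24 * t ≠ 0 := by omega
  have h1 : xx * Wt t r = ps fun m => if 24 ∣ m ∧ m / 24 ≡ r [MOD t] then pk (m / 24) else 0 := by
    unfold xx Wt
    rw [← mul_assoc, HahnSeries.single_mul_single]
    norm_num
  rw [h1]
  unfold xx
  rw [HahnSeries.single_pow, one_pow]
  ext n
  rw [HahnSeries.coeff_single_mul, one_mul, sig_coeff ht, ps_coeff]
  simp only [one_zpow, Units.val_one, one_mul, nsmul_eq_mul, mul_one]
  have hpk : ∀ j : ℕ, (im2 (Pr t r)).coeff (j : ℤ) = pk (t * j + r) := by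
    intro j
    rw [im2_coeff_nat]
    unfold Pr pk
    rw [PowerSeries.coeff_mk]
    simp
  by_cases hn : 0 ≤ n
  · obtain ⟨N, rfl⟩ := Int.eq_ofNat_of_zero_le hn
    rw [if_pos hn]
    simp only [Int.toNat_natCast]
    by_cases hc : 24 ∣ N ∧ N / 24 ≡ r [MOD t]
    · rw [if_pos hc]
      obtain ⟨⟨q, rfl⟩, hq⟩ := hc
      rw [Nat.mul_div_cancel_left q (by norm_num)] at hq ⊢
      have hq2 : q % t = r := by
        have : q % t = r % t := hq
        rw [this, Nat.mod_eq_of_lt hr]
      have hq3 : q = t * (q / t) + r := by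
        conv_lhs => rw [← Nat.div_add_mod q t, hq2]
      have e1 : ((24 * q : ℕ) : ℤ) - ((24 * r : ℕ) : ℤ) = ((24 * t : ℕ) : ℤ) * ((q / t : ℕ) : ℤ) := by
        have : (q : ℤ) = t * (q / t : ℕ) + r := by exact_mod_cast hq3
        push_cast at this ⊢
        linarith
      rw [e1, if_pos (dvd_mul_right _ _), Int.mul_ediv_cancel_left _ (by exact_mod_cast ht), hpk,
        ← hq3]
    · rw [if_neg hc]
      split_ifs with hd
      · obtain ⟨m, hm⟩ := hd
        rw [hm, Int.mul_ediv_cancel_left _ (by exact_mod_cast ht)]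
        rcases lt_or_ge m 0 with hm0 | hm0
        · exact (im2_coeff_neg _ _ hm0).symm
        · exfalso
          apply hc
          obtain ⟨M, rfl⟩ := Int.eq_ofNat_of_zero_le hm0
          have e2 : N = 24 * (t * M + r) := by
            have : (N : ℤ) = 24 * (t * M + r) := by push_cast at hm; linarith
            exact_mod_cast this
          rw [e2]
          refine ⟨dvd_mul_right _ _, ?_⟩
          rw [Nat.mul_div_cancel_left _ (by norm_num)]
          show (t * M + r) % t = r % t
          rw [Nat.mul_add_mod]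
      · rfl
  · rw [if_neg hn]
    split_ifs with hd
    · obtain ⟨m, hm⟩ := hd
      rw [hm, Int.mul_ediv_cancel_left _ (by exact_mod_cast ht)]
      have hm0 : m < 0 := by
        by_contra hcon
        push Not at hcon
        have : (0 : ℤ) ≤ ((24 * t : ℕ) : ℤ) * m := by positivity
        have h0 : (0 : ℤ) ≤ ((24 * r : ℕ) : ℤ) := by positivity
        omega
      exact (im2_coeff_neg _ _ hm0).symm
    · rfl

lemma meas_coeff_expand (e : ℕ) (he : 0 < e) (P : Polynomial kk) (s k : ℕ) :
    (X ^ s * expand kk e P).coeff k = if s ≤ k ∧ e ∣ k - s then P.coeff ((k - s) / e) else 0 := by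
  rw [coeff_X_pow_mul']
  by_cases h : s ≤ k
  · rw [if_pos h, coeff_expand he]
    simp [h]
  · rw [if_neg h, if_neg (fun hh => h hh.1)]

theorem MEAS_of (hra : RA_stmt) (hwt : WMM_stmt) (hind : IND_stmt) (hnm : NM_stmt)
    (hze : ZE_stmt) : MEAS_stmt := by
  intro t ht
  have he : 24 * t ≠ 0 := by omega
  have he0 : 0 < 24 * t := by omega
  -- the family
  let W : Option (Fin t) → LL := fun o => o.elim 1 (fun r => Wt t r)
  have hW : ∀ i, W i ∈ MM := by
    intro i
    cases i with
    | none => exact MM.one_mem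
    | some r => exact hwt t r ht
  obtain ⟨n, Cc, hNM⟩ := hnm (Option (Fin t)) W hW
  obtain ⟨K, hK⟩ := hze n
  refine ⟨K * (n * (24 * t + 24 * t + 1) + 1) + Cc, ?_⟩
  intro d A B hA hB ⟨r0, hr0, hAr0⟩
  -- the coefficients
  let h : Option (Fin t) → Polynomial kk := fun o => o.elim
    (-(X ^ (24 * t) * expand kk (24 * t) (B.map (algebraMap (ZMod 2) kk))))
    (fun r => X ^ (24 * (t - r) + 1) * expand kk (24 * t) ((A r).map (algebraMap (ZMod 2) kk)))
  set S : PowerSeries (ZMod 2) :=
    (∑ r ∈ Finset.range t, ((A r : Polynomial (ZMod 2)) : PowerSeries (ZMod 2)) * Pr t r) -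
        ((B : Polynomial (ZMod 2)) : PowerSeries (ZMod 2)) with hS
  have hZ : (∑ i, incl (h i) * W i) = xx ^ (24 * t) * sig (24 * t) 1 (im2 S) := by
    rw [Fintype.sum_option, hS, map_sub, map_sum, map_sub, map_sum, mul_sub, Finset.mul_sum,
      ← Fin.sum_univ_eq_sum_range (fun r => xx ^ (24 * t) *
        (sig (24 * t) 1) (im2 (((A r : Polynomial (ZMod 2)) : PowerSeries (ZMod 2)) * Pr t r))) t]
    have e1 : ∀ r : Fin t, incl (h (some r)) * W (some r) = xx ^ (24 * t) *
        (sig (24 * t) 1) (im2 (((A r : Polynomial (ZMod 2)) : PowerSeries (ZMod 2)) * Pr t r)) := by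
      intro r
      have hr : (r : ℕ) < t := r.2
      show incl (X ^ (24 * (t - (r : ℕ)) + 1) *
        expand kk (24 * t) ((A r).map (algebraMap (ZMod 2) kk))) * Wt t r = _
      rw [map_mul, map_pow, meas_incl_X, ← meas_sig_incl _ he, ← meas_im2_coe, map_mul im2,
        map_mul (sig (24 * t) 1), pow_succ]
      have h2 := meas_Wt t r hr
      have h3 : 24 * t = 24 * (t - (r : ℕ)) + 24 * r := by omega
      calc xx ^ (24 * (t - (r : ℕ))) * xx * (sig (24 * t) 1) (im2 ((A r : Polynomial (ZMod 2)) : PowerSeries (ZMod 2))) * Wt t r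
          = xx ^ (24 * (t - (r : ℕ))) * (sig (24 * t) 1) (im2 ((A r : Polynomial (ZMod 2)) : PowerSeries (ZMod 2))) * (xx * Wt t r) := by ring
        _ = xx ^ (24 * (t - (r : ℕ)) + 24 * r) * ((sig (24 * t) 1) (im2 ((A r : Polynomial (ZMod 2)) : PowerSeries (ZMod 2))) * sig (24 * t) 1 (im2 (Pr t r))) := by
            rw [h2, pow_add]; ring
        _ = _ := by rw [← h3]
    have e2 : incl (h none) * W none = - (xx ^ (24 * t) *
        (sig (24 * t) 1) (im2 ((B : Polynomial (ZMod 2)) : PowerSeries (ZMod 2)))) := by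
      show incl (-(X ^ (24 * t) * expand kk (24 * t) (B.map (algebraMap (ZMod 2) kk)))) * 1 = _
      rw [mul_one, map_neg, map_mul, map_pow, meas_incl_X, ← meas_sig_incl _ he, ← meas_im2_coe]
    rw [e2, Finset.sum_congr rfl (fun r _ => e1 r)]
    ring
  have hdeg : ∀ i, (h i).natDegree ≤ (24 * t + 24 * t + 1) * (d + 1) := by
    intro i
    cases i with
    | none =>
      show (-(X ^ (24 * t) * expand kk (24 * t) (B.map (algebraMap (ZMod 2) kk)))).natDegree ≤ _
      rw [natDegree_neg]
      refine natDegree_mul_le.trans ?_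
      rw [natDegree_X_pow, natDegree_expand]
      have h1 : (B.map (algebraMap (ZMod 2) kk)).natDegree ≤ d := natDegree_map_le.trans hB
      have h2 : (B.map (algebraMap (ZMod 2) kk)).natDegree * (24 * t) ≤ d * (24 * t) :=
        Nat.mul_le_mul_right _ h1
      calc 24 * t + (B.map (algebraMap (ZMod 2) kk)).natDegree * (24 * t) ≤ 24 * t + d * (24 * t) := by omega
        _ ≤ (24 * t + 24 * t + 1) * (d + 1) := by ring_nf; omega
    | some r =>
      show (X ^ (24 * (t - (r : ℕ)) + 1) *
        expand kk (24 * t) ((A r).map (algebraMap (ZMod 2) kk))).natDegree ≤ _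
      refine natDegree_mul_le.trans ?_
      rw [natDegree_X_pow, natDegree_expand]
      have h1 : ((A r).map (algebraMap (ZMod 2) kk)).natDegree ≤ d := natDegree_map_le.trans (hA r)
      have h2 : ((A r).map (algebraMap (ZMod 2) kk)).natDegree * (24 * t) ≤ d * (24 * t) :=
        Nat.mul_le_mul_right _ h1
      have h3 : 24 * (t - (r : ℕ)) ≤ 24 * t := by omega
      calc 24 * (t - (r : ℕ)) + 1 + ((A r).map (algebraMap (ZMod 2) kk)).natDegree * (24 * t)
          ≤ 24 * t + 1 + d * (24 * t) := by omega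
        _ ≤ (24 * t + 24 * t + 1) * (d + 1) := by ring_nf; omega
  -- nonvanishing
  have hZ0 : (∑ i, incl (h i) * W i) ≠ 0 := by
    intro h0
    set N := (24 * t + 24 * t + 1) * (d + 1) + 1 with hN
    have h1 : (∑ k ∈ Finset.range N, xx ^ k *
        (∑ i, algebraMap kk LL ((h i).coeff k) * W i)) = 0 := by
      rw [← h0]
      simp_rw [Finset.mul_sum]
      rw [Finset.sum_comm]
      refine Finset.sum_congr rfl fun i _ => ?_
      rw [meas_incl_sum (h i) N (by have := hdeg i; omega), Finset.sum_mul]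
      refine Finset.sum_congr rfl fun k _ => ?_
      rw [mul_assoc]
    have h2 := hind N (fun k => ∑ i, algebraMap kk LL ((h i).coeff k) * W i)
      (fun k => MM.sum_mem fun i _ => MM.mul_mem (MM.algebraMap_mem _) (hW i)) h1
    -- a nonzero coefficient
    have h3 : ∃ m, (A r0).coeff m ≠ 0 := by
      by_contra hcon
      push Not at hcon
      exact hAr0 (by ext m; simpa using hcon m)
    obtain ⟨m, hm⟩ := h3
    have hmd : m ≤ d := (le_natDegree_of_ne_zero hm).trans (hA r0)
    set k := 24 * (t - r0) + 1 + 24 * t * m with hk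
    have hkN : k < N := by
      have h4 : 24 * (t - r0) ≤ 24 * t := by omega
      have h5 : 24 * t * m ≤ 24 * t * d := Nat.mul_le_mul_left _ hmd
      have h6 : 24 * t + 1 + 24 * t * d ≤ (24 * t + 24 * t + 1) * (d + 1) := by ring_nf; omega
      omega
    have h4 := h2 k hkN
    rw [Fintype.sum_option] at h4
    have h5 : (h none).coeff k = 0 := by
      show (-(X ^ (24 * t) * expand kk (24 * t) (B.map (algebraMap (ZMod 2) kk)))).coeff k = 0
      rw [coeff_neg, meas_coeff_expand _ he0, if_neg, neg_zero]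
      rintro ⟨h6, h7⟩
      have h8 : 24 ∣ k - 24 * t := (dvd_mul_right 24 t).trans h7
      have h9 : 24 ∣ 24 * t * m := ⟨t * m, by ring⟩
      omega
    have h6 : ∀ r : Fin t, (r : ℕ) ≠ r0 → (h (some r)).coeff k = 0 := by
      intro r hr
      show (X ^ (24 * (t - (r : ℕ)) + 1) *
        expand kk (24 * t) ((A r).map (algebraMap (ZMod 2) kk))).coeff k = 0
      rw [meas_coeff_expand _ he0, if_neg]
      rintro ⟨h7, h8⟩
      have hrt := r.2
      obtain ⟨q, hq⟩ := h8
      have h9 : k = 24 * (t - (r : ℕ)) + 1 + 24 * t * q := by omega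
      have h10 : (t - r0) + t * m = (t - (r : ℕ)) + t * q := by
        have : 24 * (t - r0) + 24 * t * m = 24 * (t - (r : ℕ)) + 24 * t * q := by omega
        have e : 24 * ((t - r0) + t * m) = 24 * ((t - (r : ℕ)) + t * q) := by
          rw [mul_add, mul_add, ← mul_assoc, ← mul_assoc]; exact this
        exact Nat.eq_of_mul_eq_mul_left (by norm_num) e
      -- compare modulo t
      have h11 : (t : ℤ) ∣ ((r : ℕ) : ℤ) - (r0 : ℤ) := by
        refine ⟨(q : ℤ) - m, ?_⟩
        have : ((t - r0 : ℕ) : ℤ) + t * m = ((t - (r : ℕ) : ℕ) : ℤ) + t * q := by exact_mod_cast h10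
        rw [Nat.cast_sub hr0.le, Nat.cast_sub hrt.le] at this
        linarith
      obtain ⟨c, hc⟩ := h11
      have hc0 : c = 0 := by
        have hb1 : ((r : ℕ) : ℤ) - (r0 : ℤ) < t := by omega
        have hb2 : -(t : ℤ) < ((r : ℕ) : ℤ) - (r0 : ℤ) := by omega
        rw [hc] at hb1 hb2
        have htp : (0 : ℤ) < t := by omega
        by_contra hne
        rcases lt_or_gt_of_ne hne with hlt | hgt
        · have : (t : ℤ) * c ≤ t * (-1) := mul_le_mul_of_nonneg_left (by omega) htp.le
          omega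
        · have : (t : ℤ) * 1 ≤ t * c := mul_le_mul_of_nonneg_left (by omega) htp.le
          omega
      rw [hc0, mul_zero] at hc
      omega
    have h7 : (h (some ⟨r0, hr0⟩)).coeff k = algebraMap (ZMod 2) kk ((A r0).coeff m) := by
      show (X ^ (24 * (t - r0) + 1) *
        expand kk (24 * t) ((A r0).map (algebraMap (ZMod 2) kk))).coeff k = _
      have e : k - (24 * (t - r0) + 1) = 24 * t * m := by omega
      rw [meas_coeff_expand _ he0, if_pos ⟨by omega, by rw [e]; exact dvd_mul_right _ _⟩, e,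
        Nat.mul_div_cancel_left _ he0, coeff_map]
    rw [h5, map_zero, zero_mul, zero_add, Finset.sum_eq_single (⟨r0, hr0⟩ : Fin t)] at h4
    · rw [h7] at h4
      rcases mul_eq_zero.1 h4 with h8 | h8
      · have h9 : algebraMap (ZMod 2) kk ((A r0).coeff m) = 0 := by
          have := (algebraMap kk LL).injective
          exact this (by rw [h8, map_zero])
        exact hm ((algebraMap (ZMod 2) kk).injective (by rw [h9, map_zero]))
      · exact hra t r0 ht h8
    · intro r _ hr
      rw [h6 r (fun hcon => hr (Fin.ext hcon)), map_zero, zero_mul]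
    · intro hcon
      exact absurd (Finset.mem_univ _) hcon
  obtain ⟨P, hP0, hPn, hPc, hPo⟩ := hNM ((24 * t + 24 * t + 1) * (d + 1)) h hdeg hZ0
  have hev := hK (n * ((24 * t + 24 * t + 1) * (d + 1))) P hP0 hPn hPc
  by_contra hcon
  push Not at hcon
  set M := (K * (n * (24 * t + 24 * t + 1) + 1) + Cc) * (d + 1) with hM
  -- the order of Z is large
  have hord : ((24 * t * M : ℕ) : ℤ) < (∑ i, incl (h i) * W i).order := by
    by_contra hle
    push Not at hle
    have hc0 : (∑ i, incl (h i) * W i).coeff (∑ i, incl (h i) * W i).order ≠ 0 := by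
      exact fun h => hZ0 (HahnSeries.coeff_order_eq_zero.1 h)
    apply hc0
    generalize (∑ i, incl (h i) * W i).order = o at hle ⊢
    rw [hZ]
    unfold xx
    rw [HahnSeries.single_pow, one_pow, HahnSeries.coeff_single_mul, one_mul, sig_coeff he]
    split_ifs with hd
    · obtain ⟨m, hm⟩ := hd
      rw [hm, Int.mul_ediv_cancel_left _ (by exact_mod_cast he)]
      rcases lt_or_ge m 0 with hm0 | hm0
      · rw [im2_coeff_neg _ _ hm0, mul_zero]
      · obtain ⟨m', rfl⟩ := Int.eq_ofNat_of_zero_le hm0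
        rw [im2_coeff_nat, hcon m' ?_, map_zero, mul_zero]
        simp only [nsmul_eq_mul, mul_one] at hm
        have h1 : ((24 * t : ℕ) : ℤ) * m' ≤ ((24 * t : ℕ) : ℤ) * M := by
          push_cast at hle hm ⊢
          have : (0 : ℤ) ≤ 24 * t := by positivity
          linarith
        have h2 : 24 * t * m' ≤ 24 * t * M := by exact_mod_cast h1
        exact Nat.le_of_mul_le_mul_left h2 he0
    · rfl
  -- contradiction
  have hfin : (∑ i, incl (h i) * W i).order ≤ (M : ℤ) := by
    refine hPo.trans ?_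
    have h1 : (ev P).order + (Cc : ℤ) ≤
        (K : ℤ) * ((n * ((24 * t + 24 * t + 1) * (d + 1)) : ℕ) + 1) + Cc := by linarith
    refine h1.trans ?_
    have h2 : K * (n * ((24 * t + 24 * t + 1) * (d + 1)) + 1) + Cc ≤ M := by
      rw [hM]
      have h3 : n * ((24 * t + 24 * t + 1) * (d + 1)) + 1 ≤
          (n * (24 * t + 24 * t + 1) + 1) * (d + 1) := by ring_nf; omega
      calc K * (n * ((24 * t + 24 * t + 1) * (d + 1)) + 1) + Cc
          ≤ K * ((n * (24 * t + 24 * t + 1) + 1) * (d + 1)) + Cc * (d + 1) :=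
            Nat.add_le_add (Nat.mul_le_mul_left _ h3) (Nat.le_mul_of_pos_right _ (by omega))
        _ = _ := by ring
    exact_mod_cast h2
  have hMM : (M : ℤ) ≤ ((24 * t * M : ℕ) : ℤ) := by
    exact_mod_cast Nat.le_mul_of_pos_left M he0
  omega

end Pool.Agent.helper7.IG
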